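import Pool.Agent.N798.H.Stm2

set_option autoImplicit false

/-! Project HS, step PRD (helper999): products. -/

namespace Pool.Agent.N999.HS

open Finset MeasureTheory Filter Topology
open scoped ENNReal
open Pool.Agent.N798.T Pool.Agent.N798.HS

/-- the `i`-th term of the telescoping sum -/
noncomputable def trm {k : ℕ} (S : Finset ℕ) (F M : Fin k → ℝ → ℕ → ℂ) (i : Fin k) (ω : Fin k → ℝ) : ℂ :=
  ∑ j ∈ S, (∏ l ∈ univ.filter (fun l => l < i), F l (ω l) j) *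
    (∏ l ∈ univ.filter (fun l => i < l), M l (ω l) j) * (F i (ω i) j - M i (ω i) j)

lemma tele {k : ℕ} (S : Finset ℕ) (F M : Fin k → ℝ → ℕ → ℂ) (ω : Fin k → ℝ) :
    ∑ j ∈ S, (∏ i, F i (ω i) j - ∏ i, M i (ω i) j) = ∑ i, trm S F M i ω := by
  unfold trm
  rw [sum_comm]
  refine sum_congr rfl fun j _ => ?_
  have h := Finset.prod_sub_ordered univ (fun i => M i (ω i) j) (fun i => M i (ω i) j - F i (ω i) j)
  simp only [sub_sub_cancel] at h
  rw [h, sub_sub_cancel_left, ← sum_neg_distrib]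
  refine sum_congr rfl fun i _ => by ring

lemma trm_meas {k : ℕ} (S : Finset ℕ) (F M : Fin k → ℝ → ℕ → ℂ)
    (hF : ∀ i j, Measurable fun x => F i x j) (hM : ∀ i j, Measurable fun x => M i x j) (i : Fin k) :
    Measurable (trm S F M i) := by
  unfold trm
  refine Finset.measurable_sum _ fun j _ => ?_
  refine Measurable.mul (Measurable.mul ?_ ?_) (Measurable.sub ?_ ?_)
  · exact Finset.measurable_prod _ fun l _ => (hF l j).comp (measurable_pi_apply l)
  · exact Finset.measurable_prod _ fun l _ => (hM l j).comp (measurable_pi_apply l)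
  · exact (hF i j).comp (measurable_pi_apply i)
  · exact (hM i j).comp (measurable_pi_apply i)

instance prob1 : IsProbabilityMeasure ((volume : Measure ℝ).restrict (Set.Icc (0 : ℝ) 1)) :=
  ⟨by simp⟩

instance probk (k : ℕ) : IsProbabilityMeasure (mu k) := by
  unfold mu
  infer_instance

lemma mu_ae (k : ℕ) : ∀ᵐ ω ∂(mu k), ∀ l, ω l ∈ Set.Icc (0 : ℝ) 1 := by
  have h : mu k = (Measure.pi fun _ : Fin k => (volume : Measure ℝ)).restrict
      (Set.univ.pi fun _ => Set.Icc (0 : ℝ) 1) := by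
    unfold mu
    rw [Measure.restrict_pi_pi]
  rw [h]
  refine (ae_restrict_mem (MeasurableSet.univ_pi fun _ => measurableSet_Icc)).mono fun ω hω l => ?_
  exact hω l (Set.mem_univ l)

lemma one_coord {k : ℕ} (i : Fin (k + 1)) (f : (Fin (k + 1) → ℝ) → ℝ≥0∞) (hf : Measurable f) (B : ℝ≥0∞)
    (h : ∀ ω' : Fin k → ℝ, (∀ l, ω' l ∈ Set.Icc (0 : ℝ) 1) →
      ∫⁻ x in Set.Icc (0 : ℝ) 1, f (i.insertNth x ω') ≤ B) :
    ∫⁻ ω, f ω ∂(mu (k + 1)) ≤ B := by
  have hmp := measurePreserving_piFinSuccAbove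
    (fun _ : Fin (k + 1) => (volume : Measure ℝ).restrict (Set.Icc (0 : ℝ) 1)) i
  have h1 := (hmp.symm).lintegral_comp hf
  unfold mu
  rw [← h1]
  refine (le_of_eq (lintegral_prod_symm' _ (hf.comp (MeasurableEquiv.measurable _)))).trans ?_
  calc _ ≤ ∫⁻ _ω', B ∂(mu k) := by
        refine lintegral_mono_ae ?_
        filter_upwards [mu_ae k] with ω' hω'
        exact h ω' hω'
    _ = B := by simp

lemma insert_ne {k : ℕ} (i l : Fin (k + 1)) (hl : l ≠ i) (x : ℝ) (ω' : Fin k → ℝ) :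
    (i.insertNth x ω' : Fin (k + 1) → ℝ) l = (i.insertNth 0 ω' : Fin (k + 1) → ℝ) l := by
  obtain ⟨l', rfl⟩ := Fin.exists_succAbove_eq hl
  rw [Fin.insertNth_apply_succAbove, Fin.insertNth_apply_succAbove]

lemma insert_mem {k : ℕ} (i l : Fin (k + 1)) (hl : l ≠ i) (ω' : Fin k → ℝ)
    (h : ∀ l, ω' l ∈ Set.Icc (0 : ℝ) 1) :
    (i.insertNth 0 ω' : Fin (k + 1) → ℝ) l ∈ Set.Icc (0 : ℝ) 1 := by
  obtain ⟨l', rfl⟩ := Fin.exists_succAbove_eq hl
  rw [Fin.insertNth_apply_succAbove]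
  exact h l'

open Classical in
/-- the weight -/
noncomputable def wgt {k : ℕ} (S : Finset ℕ) (F M : Fin k → ℝ → ℕ → ℂ) (i : Fin k) (ω : Fin k → ℝ)
    (j : ℕ) : ℂ :=
  if j ∈ S then (∏ l ∈ univ.filter (fun l => l < i), F l (ω l) j) *
    (∏ l ∈ univ.filter (fun l => i < l), M l (ω l) j) else 0

lemma trm_bound {k : ℕ} (S : Finset ℕ) (F M : Fin k → ℝ → ℕ → ℂ)
    (hF : ∀ i j, Measurable fun x => F i x j) (hM : ∀ i j, Measurable fun x => M i x j)
    (hF1 : ∀ i, ∀ x ∈ Set.Icc (0 : ℝ) 1, ∀ j ∈ S, ‖F i x j‖ ≤ 1)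
    (hM1 : ∀ i, ∀ x ∈ Set.Icc (0 : ℝ) 1, ∀ j ∈ S, ‖M i x j‖ ≤ 1) (B : ℝ≥0∞)
    (h : ∀ i, ∀ w : ℕ → ℂ, (∀ n, ‖w n‖ ≤ 1) →
      ∫⁻ x in Set.Icc (0 : ℝ) 1, ‖∑ j ∈ S, w j * (F i x j - M i x j)‖ₑ ^ 2 ≤ B) (i : Fin k) :
    ∫⁻ ω, ‖trm S F M i ω‖ₑ ^ 2 ∂(mu k) ≤ B := by
  cases k with
  | zero => exact i.elim0
  | succ k =>
    refine one_coord i _ (((trm_meas S F M hF hM i).enorm).pow_const 2) B fun ω' hω' => ?_
    have hw : ∀ n, ‖wgt S F M i (i.insertNth 0 ω') n‖ ≤ 1 := by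
      intro n
      unfold wgt
      split_ifs with hn
      · rw [norm_mul]
        refine mul_le_one₀ ?_ (norm_nonneg _) ?_
        · rw [norm_prod]
          refine prod_le_one (fun _ _ => norm_nonneg _) fun l hl => ?_
          rw [mem_filter] at hl
          exact hF1 l _ (insert_mem i l hl.2.ne ω' hω') n hn
        · rw [norm_prod]
          refine prod_le_one (fun _ _ => norm_nonneg _) fun l hl => ?_
          rw [mem_filter] at hl
          exact hM1 l _ (insert_mem i l hl.2.ne' ω' hω') n hn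
      · simp
    refine le_trans (le_of_eq ?_) (h i _ hw)
    refine lintegral_congr fun x => ?_
    congr 2
    unfold trm
    refine sum_congr rfl fun j hj => ?_
    unfold wgt
    rw [if_pos hj, Fin.insertNth_apply_same]
    congr 2
    · refine prod_congr rfl fun l hl => ?_
      rw [mem_filter] at hl
      rw [insert_ne i l hl.2.ne x ω']
    · refine prod_congr rfl fun l hl => ?_
      rw [mem_filter] at hl
      rw [insert_ne i l hl.2.ne' x ω']

lemma sq_sum {k : ℕ} (f : Fin k → ℝ≥0∞) : (∑ i, f i) ^ 2 ≤ (k : ℝ≥0∞) * ∑ i, f i ^ 2 := by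
  have h := ENNReal.rpow_sum_le_const_mul_sum_rpow (univ : Finset (Fin k)) f (p := 2) (by norm_num)
  rw [Finset.card_univ, Fintype.card_fin] at h
  have e : (2 : ℝ) - 1 = 1 := by norm_num
  rw [e, ENNReal.rpow_one] at h
  simpa only [ENNReal.rpow_two] using h

theorem prd : S_PRD := by
  intro k S F M hF hM hF1 hM1 B h
  calc ∫⁻ ω, ‖∑ j ∈ S, (∏ i, F i (ω i) j - ∏ i, M i (ω i) j)‖ₑ ^ 2 ∂(mu k)
      ≤ ∫⁻ ω, (k : ℝ≥0∞) * ∑ i, ‖trm S F M i ω‖ₑ ^ 2 ∂(mu k) := by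
        refine lintegral_mono fun ω => ?_
        rw [tele]
        refine le_trans ?_ (sq_sum _)
        exact pow_le_pow_left₀ (by positivity) (enorm_sum_le _ _) 2
    _ = (k : ℝ≥0∞) * ∑ i, ∫⁻ ω, ‖trm S F M i ω‖ₑ ^ 2 ∂(mu k) := by
        rw [lintegral_const_mul', lintegral_finset_sum]
        · exact fun i _ => ((trm_meas S F M hF hM i).enorm).pow_const 2
        · exact ENNReal.natCast_ne_top k
    _ ≤ (k : ℝ≥0∞) * ∑ _i : Fin k, B := by
        gcongr with i _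
        exact trm_bound S F M hF hM hF1 hM1 B h i
    _ = (k : ℝ≥0∞) ^ 2 * B := by
        rw [sum_const, card_univ, Fintype.card_fin, nsmul_eq_mul]
        ring

end Pool.Agent.N999.HS
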